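import Pool.Agent.Q77.LU.StmU
import Pool.Agent.Q75.LU.ADC

/-!
# Project LU: elements with almost trivial adjoint action are almost central
-/

set_option autoImplicit false

namespace Pool.Agent.Q24.LU.ADCU

open MeasureTheory Matrix Set Filter Topology
open scoped ContDiff Matrix.Norms.Frobenius
open Pool.Agent.Q77.LU

noncomputable section

variable {N n : ℕ} {G : Subgroup (UU N)}

/-- the displacement of the adjoint action -/
def aw (B : LieBasis G n) (w : G) : ℝ := ∑ a : Fin n, fro2 (mt w * B.X a * (mt w)ᴴ - B.X a)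

lemma aw_nonneg (B : LieBasis G n) (w : G) : 0 ≤ aw B w :=
  Finset.sum_nonneg fun a _ => by rw [fro2_eq]; positivity

lemma aw_cont (B : LieBasis G n) : Continuous (aw B) := by
  unfold aw
  refine continuous_finsetSum _ fun a _ => ?_
  simp only [fro2_eq]
  refine Continuous.pow (Continuous.norm (Continuous.sub (Continuous.mul (Continuous.mul continuous_mt
    continuous_const) ?_) continuous_const)) 2
  exact Continuous.matrix_conjTranspose continuous_mt

lemma aw_zero (h : S_ADC) (hG : IsClosed (G : Set (UU N))) (hc : ConnectedSpace G)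
    (B : LieBasis G n) {w : G} (hw : aw B w = 0) : w ∈ Subgroup.center G := by
  refine h N n G hG hc B w fun a => ?_
  have h1 := (Finset.sum_eq_zero_iff_of_nonneg (fun a _ => by rw [fro2_eq]; positivity)).1 hw a
    (Finset.mem_univ a)
  rw [fro2_eq] at h1
  have h2 : ‖mt w * B.X a * (mt w)ᴴ - B.X a‖ = 0 := by
    exact pow_eq_zero_iff (two_ne_zero) |>.1 h1
  exact sub_eq_zero.1 (norm_eq_zero.1 h2)

/-- central elements act trivially -/
lemma center_conj (B : LieBasis G n) {z : G} (hz : z ∈ Subgroup.center G) (a : Fin n) :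
    mt z * B.X a * (mt z)ᴴ = B.X a := by
  have h1 : mt z * B.X a = B.X a * mt z := by
    have h3 := (Q75.LU.ADC.deriv_ex B a).const_mul (mt z)
    have h4 := (Q75.LU.ADC.deriv_ex B a).mul_const (mt z)
    have h5 : (fun t => mt z * mt (B.ex a t)) = fun t => mt (B.ex a t) * mt z := by
      funext t
      rw [← mt_mul, ← mt_mul, (Subgroup.mem_center_iff.1 hz) (B.ex a t)]
    rw [h5] at h3
    exact h3.unique h4
  rw [h1, Matrix.mul_assoc, mt_unit, Matrix.mul_one]

lemma aw_mul_center (B : LieBasis G n) (w : G) {z : G} (hz : z ∈ Subgroup.center G) :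
    aw B (w * z⁻¹) = aw B w := by
  unfold aw
  refine Finset.sum_congr rfl fun a _ => ?_
  have hz' : z⁻¹ ∈ Subgroup.center G := inv_mem hz
  have h1 : mt (w * z⁻¹) * B.X a * (mt (w * z⁻¹))ᴴ = mt w * B.X a * (mt w)ᴴ := by
    rw [mt_mul, conjTranspose_mul]
    calc mt w * mt z⁻¹ * B.X a * ((mt z⁻¹)ᴴ * (mt w)ᴴ) =
        mt w * (mt z⁻¹ * B.X a * (mt z⁻¹)ᴴ) * (mt w)ᴴ := by simp only [Matrix.mul_assoc]
      _ = _ := by rw [center_conj B hz']
  rw [h1]

/-- the norm is invariant -/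
lemma norm_mul_unit (A : Mt N) (g : G) : ‖A * mt g‖ ^ 2 = ‖A‖ ^ 2 := by
  rw [← fro2_eq, ← fro2_eq]
  unfold fro2
  rw [conjTranspose_mul]
  have h1 : (mt g)ᴴ * Aᴴ * (A * mt g) = (mt g)ᴴ * (Aᴴ * A * mt g) := by
    simp only [Matrix.mul_assoc]
  rw [h1, trace_mul_comm, Matrix.mul_assoc, mt_unit, Matrix.mul_one]

lemma dist_mul (w z : G) : ‖mt (w * z⁻¹) - 1‖ ^ 2 = ‖mt w - mt z‖ ^ 2 := by
  rw [← norm_mul_unit (mt (w * z⁻¹) - 1) z, sub_mul, one_mul, ← mt_mul, inv_mul_cancel_right]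

/-- `lin` as a continuous linear map -/
def linL (B : LieBasis G n) : (Fin n → ℝ) →L[ℝ] Mt N :=
  LinearMap.toContinuousLinearMap
    { toFun := lin B
      map_add' := fun v w => by
        unfold lin
        rw [← Finset.sum_add_distrib]
        refine Finset.sum_congr rfl fun a _ => ?_
        rw [Pi.add_apply, add_smul]
      map_smul' := fun c v => by
        unfold lin
        rw [RingHom.id_apply, Finset.smul_sum]
        refine Finset.sum_congr rfl fun a _ => ?_
        rw [Pi.smul_apply, smul_eq_mul, mul_smul] }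

lemma linL_apply (B : LieBasis G n) (v : Fin n → ℝ) : linL B v = lin B v := rfl

/-- the derivative of the adjoint action -/
def adL (B : LieBasis G n) : (Fin n → ℝ) →L[ℝ] (Fin n → Mt N) :=
  LinearMap.toContinuousLinearMap
    { toFun := fun v a => lin B v * B.X a - B.X a * lin B v
      map_add' := fun v w => by
        funext a
        rw [Pi.add_apply, ← linL_apply, ← linL_apply, ← linL_apply, map_add]
        noncomm_ring
      map_smul' := fun c v => by
        funext a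
        rw [RingHom.id_apply, Pi.smul_apply, ← linL_apply, ← linL_apply, map_smul, smul_sub,
          Matrix.smul_mul, Matrix.mul_smul] }

lemma adL_apply (B : LieBasis G n) (v : Fin n → ℝ) (a : Fin n) :
    adL B v a = lin B v * B.X a - B.X a * lin B v := rfl

/-- the adjoint action in the exponential chart -/
def ff (B : LieBasis G n) (v : Fin n → ℝ) (a : Fin n) : Mt N :=
  NormedSpace.exp (lin B v) * B.X a * NormedSpace.exp (-lin B v) - B.X a

lemma exp_lin_deriv (B : LieBasis G n) :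
    HasFDerivAt (fun v => NormedSpace.exp (lin B v)) (linL B) 0 := by
  have h1 : HasFDerivAt (NormedSpace.exp : Mt N → Mt N) (1 : Mt N →L[ℝ] Mt N) (linL B 0) := by
    rw [map_zero]
    exact hasFDerivAt_exp_zero
  have h2 := h1.comp (0 : Fin n → ℝ) (linL B).hasFDerivAt
  exact h2

lemma exp_neg_lin_deriv (B : LieBasis G n) :
    HasFDerivAt (fun v => NormedSpace.exp (-lin B v)) (-linL B) 0 := by
  have h1 : HasFDerivAt (NormedSpace.exp : Mt N → Mt N) (1 : Mt N →L[ℝ] Mt N)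
      ((-linL B) (0 : Fin n → ℝ)) := by
    rw [map_zero]
    exact hasFDerivAt_exp_zero
  have h2 := h1.comp (0 : Fin n → ℝ) (-linL B).hasFDerivAt
  exact h2

lemma ff_zero (B : LieBasis G n) : ff B 0 = 0 := by
  funext a
  unfold ff
  rw [lin_zero, neg_zero, NormedSpace.exp_zero]
  simp

lemma ff_deriv (B : LieBasis G n) : HasFDerivAt (ff B) (adL B) 0 := by
  refine hasFDerivAt_pi'.2 fun a => ?_
  have h1 := ((exp_lin_deriv B).mul_const' (B.X a)).mul' (exp_neg_lin_deriv B)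
  have h2 := h1.sub_const (B.X a)
  have h3 : (ContinuousLinearMap.proj a).comp (adL B) =
      (NormedSpace.exp (lin B 0) * B.X a) • (-linL B) +
        MulOpposite.op (NormedSpace.exp (-lin B 0)) • MulOpposite.op (B.X a) • (linL B) := by
    ext1 v
    simp only [lin_zero, neg_zero, NormedSpace.exp_zero, one_mul, MulOpposite.op_one, one_smul]
    show lin B v * B.X a - B.X a * lin B v = B.X a * (-lin B v) + lin B v * B.X a
    noncomm_ring
  have h4 : HasFDerivAt (fun x => ff B x a) ((ContinuousLinearMap.proj a).comp (adL B)) 0 := by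
    rw [h3]
    exact h2
  exact h4

/-- the displacement near the identity -/
lemma local_bound (B : LieBasis G n) (hNC : NoCentre B) : ∃ c K : ℝ, 0 < c ∧ 0 ≤ K ∧
    ∀ᶠ v in 𝓝 (0 : Fin n → ℝ), c * ‖v‖ ≤ ‖ff B v‖ ∧ ‖NormedSpace.exp (lin B v) - 1‖ ≤ K * ‖v‖ := by
  have hker : LinearMap.ker (adL B : (Fin n → ℝ) →ₗ[ℝ] (Fin n → Mt N)) = ⊥ := by
    rw [LinearMap.ker_eq_bot']
    intro v hv
    apply hNC
    intro a
    have h1 : adL B v a = 0 := congrFun hv a
    rw [adL_apply] at h1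
    exact sub_eq_zero.1 h1
  obtain ⟨κ, hκ, ha⟩ := LinearMap.exists_antilipschitzWith
    (adL B : (Fin n → ℝ) →ₗ[ℝ] (Fin n → Mt N)) hker
  have ha' : ∀ v, ‖v‖ ≤ κ * ‖adL B v‖ := fun v => by
    have := ha.le_mul_dist v 0
    rw [dist_zero_right, map_zero, dist_zero_right] at this
    exact this
  have hκ' : (0 : ℝ) < κ := hκ
  obtain ⟨K, hK0, hK⟩ := (exp_lin_deriv B).isBigO_sub.exists_pos
  rw [Asymptotics.isBigOWith_iff] at hK
  have h2 := (ff_deriv B).isLittleO
  rw [Asymptotics.isLittleO_iff] at h2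
  have h3 := h2 (c := 1 / (2 * κ)) (by positivity)
  refine ⟨1 / (2 * κ), K, by positivity, hK0.le, ?_⟩
  filter_upwards [h3, hK] with v h4 h5
  rw [ff_zero, sub_zero, sub_zero] at h4
  rw [lin_zero, NormedSpace.exp_zero, sub_zero] at h5
  refine ⟨?_, h5⟩
  have h6 : ‖adL B v‖ ≤ ‖ff B v‖ + 1 / (2 * κ) * ‖v‖ := by
    have : adL B v = ff B v - (ff B v - adL B v) := by abel
    calc ‖adL B v‖ = ‖ff B v - (ff B v - adL B v)‖ := by rw [← this]
      _ ≤ ‖ff B v‖ + ‖ff B v - adL B v‖ := norm_sub_le _ _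
      _ ≤ _ := add_le_add le_rfl h4
  have h7 : 1 / κ * ‖v‖ ≤ ‖adL B v‖ := by
    rw [div_mul_eq_mul_div, one_mul, div_le_iff₀ hκ', mul_comm]
    exact ha' v
  have h8 : 1 / (κ : ℝ) * ‖v‖ = 1 / (2 * κ) * ‖v‖ + 1 / (2 * κ) * ‖v‖ := by
    field_simp
    ring
  linarith

/-- the bound near the identity of `G` -/
lemma local_group (h2 : S_LOGC) (hG : IsClosed (G : Set (UU N))) (B : LieBasis G n)
    (hNC : NoCentre B) : ∃ (C δ : ℝ), 0 < C ∧ 0 < δ ∧ ∀ w : G, ‖mt w - 1‖ < δ →
    ‖mt w - 1‖ ^ 2 ≤ C * aw B w := by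
  obtain ⟨c, K, hc, hK, hloc⟩ := local_bound B hNC
  obtain ⟨lg, ρ, ε, hρ, hε, hlg, hlgexp, hlog⟩ := h2 N n G hG B
  have hlg1 : lg 1 = 0 := by
    have := hlgexp 0 (by
      unfold n2
      simp only [Pi.zero_apply]
      simp
      positivity)
    rwa [lin_zero, NormedSpace.exp_zero] at this
  have hcont : Tendsto lg (𝓝 1) (𝓝 0) := by
    have := hlg.continuous.tendsto 1
    rwa [hlg1] at this
  have h3 := hcont.eventually hloc
  obtain ⟨δ, hδ, h3⟩ := Metric.eventually_nhds_iff.1 h3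
  refine ⟨(K / c) ^ 2 + 1, min δ ε, by positivity, lt_min hδ hε, fun w hw => ?_⟩
  have hw1 : dist (mt w) 1 < δ := by
    rw [dist_eq_norm]
    exact lt_of_lt_of_le hw (min_le_left _ _)
  obtain ⟨h4, h5⟩ := h3 hw1
  obtain ⟨_, h6⟩ := hlog w (lt_of_lt_of_le hw (min_le_right _ _))
  rw [← h6] at h5
  obtain ⟨v, hv⟩ : ∃ v, v = lg (mt w) := ⟨_, rfl⟩
  rw [← hv] at h4 h5 h6
  -- the matrix of `w⁻¹`
  have h7 : (mt w)ᴴ = NormedSpace.exp (-lin B v) := by
    have e1 : NormedSpace.exp (-lin B v) = (NormedSpace.exp (lin B v))⁻¹ := Matrix.exp_neg _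
    rw [e1, ← h6]
    exact (Matrix.inv_eq_right_inv (mt_unit w)).symm
  have h8 : ‖ff B v‖ ^ 2 ≤ aw B w := by
    have e1 : ‖ff B v‖ ≤ Real.sqrt (aw B w) := by
      refine (pi_norm_le_iff_of_nonneg (Real.sqrt_nonneg _)).2 fun a => ?_
      apply Real.le_sqrt_of_sq_le
      have e2 : ff B v a = mt w * B.X a * (mt w)ᴴ - B.X a := by
        rw [h7]
        unfold ff
        rw [← h6]
      rw [e2, ← fro2_eq]
      unfold aw
      exact Finset.single_le_sum (f := fun a => fro2 (mt w * B.X a * (mt w)ᴴ - B.X a))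
        (fun b _ => fro2_nonneg _) (Finset.mem_univ a)
    calc ‖ff B v‖ ^ 2 ≤ Real.sqrt (aw B w) ^ 2 := pow_le_pow_left₀ (norm_nonneg _) e1 2
      _ = aw B w := Real.sq_sqrt (aw_nonneg B w)
  have h9 : ‖mt w - 1‖ ≤ K / c * ‖ff B v‖ := by
    have e1 : ‖v‖ ≤ ‖ff B v‖ / c := by
      rw [le_div_iff₀ hc, mul_comm]
      exact h4
    calc ‖mt w - 1‖ ≤ K * ‖v‖ := h5
      _ ≤ K * (‖ff B v‖ / c) := mul_le_mul_of_nonneg_left e1 hK
      _ = _ := by ring
  calc ‖mt w - 1‖ ^ 2 ≤ (K / c * ‖ff B v‖) ^ 2 := pow_le_pow_left₀ (norm_nonneg _) h9 2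
    _ = (K / c) ^ 2 * ‖ff B v‖ ^ 2 := by ring
    _ ≤ (K / c) ^ 2 * aw B w := mul_le_mul_of_nonneg_left h8 (sq_nonneg _)
    _ ≤ ((K / c) ^ 2 + 1) * aw B w := by
        have := aw_nonneg B w
        nlinarith

theorem t_ADCU (_h1 : S_EXPG) (h2 : S_LOGC) (h3 : S_ADC) (_h4 : S_FINC) : S_ADCU := by
  intro N n G hG hconn B hNC
  obtain ⟨C1, δ, hC1, hδ, hloc⟩ := local_group h2 hG B hNC
  have hcomp : CompactSpace G := compactG hG
  -- the complement of the neighbourhoods of the centre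
  obtain ⟨S, hS⟩ : ∃ S : Set G, S = {w | ∀ z ∈ Subgroup.center G, δ ≤ ‖mt w - mt z‖} := ⟨_, rfl⟩
  have hScl : IsClosed S := by
    have e1 : S = ⋂ z ∈ Subgroup.center G, {w | δ ≤ ‖mt w - mt z‖} := by
      rw [hS]
      ext w
      simp
    rw [e1]
    exact isClosed_biInter fun z _ => isClosed_le continuous_const
      (continuous_mt.sub continuous_const).norm
  have hSc : IsCompact S := hScl.isCompact
  -- a bound of the distance
  obtain ⟨w0, _, hw0⟩ := isCompact_univ.exists_isMaxOn (Set.univ_nonempty (α := G))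
    ((continuous_mt.sub continuous_const).norm.continuousOn (s := Set.univ)
      : ContinuousOn (fun w : G => ‖mt w - 1‖) Set.univ)
  have hmax : ∀ w : G, ‖mt w - 1‖ ≤ ‖mt w0 - 1‖ := fun w => hw0 (Set.mem_univ w)
  rcases S.eq_empty_or_nonempty with hemp | hne
  · refine ⟨C1, hC1, fun w => ?_⟩
    have h5 : w ∉ S := by rw [hemp]; exact Set.notMem_empty w
    rw [hS] at h5
    simp only [Set.mem_ofPred_eq, not_forall, not_le] at h5
    obtain ⟨z, hz, h6⟩ := h5
    refine ⟨z, hz, ?_⟩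
    have h7 : ‖mt (w * z⁻¹) - 1‖ < δ := by
      have := dist_mul w z
      rw [sq_eq_sq₀ (norm_nonneg _) (norm_nonneg _)] at this
      rw [this]
      exact h6
    have h8 := hloc _ h7
    rw [dist_mul, aw_mul_center B w hz] at h8
    exact h8
  · obtain ⟨w1, hw1, hmin⟩ := hSc.exists_isMinOn hne (aw_cont B).continuousOn
    have hpos : 0 < aw B w1 := by
      rcases (aw_nonneg B w1).eq_or_lt with h5 | h5
      · exfalso
        have h6 := aw_zero h3 hG hconn B h5.symm
        rw [hS] at hw1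
        have h7 := hw1 w1 h6
        rw [sub_self, norm_zero] at h7
        linarith
      · exact h5
    refine ⟨C1 + ‖mt w0 - 1‖ ^ 2 / aw B w1, by positivity, fun w => ?_⟩
    have h0 := aw_nonneg B w
    have h0' : 0 ≤ ‖mt w0 - 1‖ ^ 2 / aw B w1 := by positivity
    by_cases hwS : w ∈ S
    · refine ⟨1, one_mem _, ?_⟩
      have h5 : aw B w1 ≤ aw B w := hmin hwS
      have h6 : ‖mt w - mt (1 : G)‖ ^ 2 ≤ ‖mt w0 - 1‖ ^ 2 := by
        rw [mt_one]
        exact pow_le_pow_left₀ (norm_nonneg _) (hmax w) 2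
      calc ‖mt w - mt (1 : G)‖ ^ 2 ≤ ‖mt w0 - 1‖ ^ 2 := h6
        _ = ‖mt w0 - 1‖ ^ 2 / aw B w1 * aw B w1 := by field_simp
        _ ≤ ‖mt w0 - 1‖ ^ 2 / aw B w1 * aw B w := mul_le_mul_of_nonneg_left h5 h0'
        _ ≤ (C1 + ‖mt w0 - 1‖ ^ 2 / aw B w1) * aw B w := by nlinarith [mul_nonneg hC1.le h0]
    · have h5 := hwS
      rw [hS] at h5
      simp only [Set.mem_ofPred_eq, not_forall, not_le] at h5
      obtain ⟨z, hz, h6⟩ := h5
      refine ⟨z, hz, ?_⟩
      have h7 : ‖mt (w * z⁻¹) - 1‖ < δ := by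
        have := dist_mul w z
        rw [sq_eq_sq₀ (norm_nonneg _) (norm_nonneg _)] at this
        rw [this]
        exact h6
      have h8 := hloc _ h7
      rw [dist_mul, aw_mul_center B w hz] at h8
      calc ‖mt w - mt z‖ ^ 2 ≤ C1 * aw B w := h8
        _ ≤ (C1 + ‖mt w0 - 1‖ ^ 2 / aw B w1) * aw B w := by nlinarith [mul_nonneg h0' h0]

end

end Pool.Agent.Q24.LU.ADCU
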