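import Pool.Agent.Q77.LU.StmU
import Pool.Agent.Q2.LU.EZ

/-!
# Project LU: lower bound of the local zero point energy (uniform version)
-/

set_option autoImplicit false

namespace Pool.Agent.Q24.LU

open Matrix Finset Pool.Agent.Q77.LU Pool.Agent.Q2.LU

section
open scoped MatrixOrder ComplexOrder

lemma psd_factor {ι : Type} [Fintype ι] [DecidableEq ι] {A : Matrix ι ι ℝ} (h : A.PosSemidef) :
    ∃ Q : Matrix ι ι ℝ, A = Qᵀ * Q := by
  obtain ⟨Q, hQ⟩ := CStarAlgebra.nonneg_iff_eq_star_mul_self.mp h.nonneg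
  refine ⟨Q, ?_⟩
  rw [hQ, star_eq_conjTranspose, Matrix.conjTranspose_eq_transpose_of_trivial]

end

open scoped Matrix.Norms.Frobenius

noncomputable section

lemma fro2_nonneg {N : ℕ} (M : Mt N) : 0 ≤ fro2 M := by
  unfold fro2
  rw [Matrix.trace, Complex.re_sum]
  apply Finset.sum_nonneg
  intro i _
  rw [Matrix.diag_apply, Matrix.mul_apply, Complex.re_sum]
  apply Finset.sum_nonneg
  intro j _
  rw [Matrix.conjTranspose_apply]
  have h : (star (M j i) * M j i).re = Complex.normSq (M j i) := by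
    rw [Complex.normSq_apply]
    simp [Complex.mul_re]
  rw [h]
  exact Complex.normSq_nonneg _

variable {N n D l : ℕ} [NeZero l] {G : Subgroup (UU N)}

omit [NeZero l] in
lemma lapF_tr (L : Matrix ((Fin D → ZMod l) × Fin n) ((Fin D → ZMod l) × Fin n) ℝ) :
    (lapF L)ᵀ = lapF Lᵀ := by
  ext p q
  simp only [Matrix.transpose_apply, lapF]
  by_cases h : p.1.2 = q.1.2
  · rw [if_pos h, if_pos h.symm]
  · rw [if_neg h, if_neg (Ne.symm h)]

lemma lapF_psd {L : Matrix ((Fin D → ZMod l) × Fin n) ((Fin D → ZMod l) × Fin n) ℝ}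
    (h : L.PosSemidef) : (lapF L).PosSemidef := by
  obtain ⟨Q, hQ⟩ := psd_factor h
  rw [hQ, ← lapF_mul, ← lapF_tr,
    ← Matrix.conjTranspose_eq_transpose_of_trivial]
  exact Matrix.posSemidef_conjTranspose_mul_self _

lemma tsq_lapD (B : LieBasis G n) (U : Link D l → G) :
    tsq (lapD B U) = D * tsq (lapU B U) := by
  have h1 : lapD B U = lapF (lapU B U) := rfl
  rw [h1]
  refine tsq_moments' (lapF_psd (lapU_psd B U)).1 (lapU_herm B U) _ fun k hk => ?_
  rw [lapF_pow, trace_lapF]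

lemma nab_psd (B : LieBasis G n) (U : Link D l → G) : (Nab B U * (Nab B U)ᵀ).PosSemidef := by
  rw [← Matrix.conjTranspose_eq_transpose_of_trivial]
  exact Matrix.posSemidef_self_mul_conjTranspose _

lemma nab_tr_nab (B : LieBasis G n) (U : Link D l → G) : (Nab B U)ᵀ * Nab B U = lapU B U :=
  grad_tr_grad B U

/-- the comparison of `hess` with the Laplacian -/
lemma hess_lower (h1 : S_TSH) (h2 : S_ROT) (B : LieBasis G n) (U : Link D l → G) {η : ℝ}
    (hη : 0 ≤ η) (hp : (hess B U).PosSemidef)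
    (hW : ∀ p q : Link D l × Fin n,
      |hess B U p q + (Nab B U * (Nab B U)ᵀ) p q - lapD B U p q| ≤ η) :
    ((D : ℝ) - 1) * tsq (lapU B U) -
      (l : ℝ) ^ D * D * n * Real.sqrt ((l : ℝ) ^ D * D * n * η) ≤ tsq (hess B U) := by
  have hD : (lapD B U).PosSemidef := lapF_psd (lapU_psd B U)
  have a1 := h1 (Link D l × Fin n) (lapD B U) (hess B U + Nab B U * (Nab B U)ᵀ) η hD
    (hp.add (nab_psd B U)) hη (fun p q => by
      rw [Matrix.add_apply, abs_sub_comm]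
      exact hW p q)
  have a2 := h2.1 (Link D l × Fin n) (hess B U) (Nab B U * (Nab B U)ᵀ) hp (nab_psd B U)
  have a3 := h2.2 (Link D l × Fin n) ((Fin D → ZMod l) × Fin n) (Nab B U)
  rw [nab_tr_nab] at a3
  rw [tsq_lapD] at a1
  have a4 : ((Fintype.card (Link D l × Fin n) : ℕ) : ℝ) = (l : ℝ) ^ D * D * n := by
    simp [Link, ZMod.card]
  rw [a4] at a1
  linarith

/-- the constant fields -/
def cf (D l : ℕ) {n : ℕ} (a : Fin n) : (Fin D → ZMod l) × Fin n → ℝ := fun p => if p.2 = a then 1 else 0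

omit [NeZero l] in
lemma cov_cf [NeZero l] (B : LieBasis G n) (i : Fin D) (a : Fin n) :
    (cov B (fun _ : Link D l => (1 : G)) i) *ᵥ (cf D l a) = cf D l a := by
  ext ⟨x, b⟩
  rw [Matrix.mulVec, dotProduct, Fintype.sum_prod_type]
  simp only [cov_apply, cf, AdM_one]
  rw [Finset.sum_eq_single (x + unitv i)]
  · simp only [if_true]
    rw [Finset.sum_eq_single a]
    · simp [Matrix.one_apply]
    · intro c _ hc
      simp [hc]
    · intro h
      exact absurd (Finset.mem_univ _) h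
  · intro y _ hy
    simp [hy]
  · intro h
    exact absurd (Finset.mem_univ _) h

lemma lapU_cf (B : LieBasis G n) (a : Fin n) :
    (lapU B (fun _ : Link D l => (1 : G))) *ᵥ (cf D l a) = 0 := by
  rw [lapU, Matrix.sum_mulVec]
  refine Finset.sum_eq_zero fun i _ => ?_
  rw [← Matrix.mulVec_mulVec, Matrix.sub_mulVec, cov_cf, Matrix.one_mulVec, sub_self,
    Matrix.mulVec_zero]

lemma pow_cf (B : LieBasis G n) (a : Fin n) (c : ℝ) (k : ℕ) :
    ((1 - c • lapU B (fun _ : Link D l => (1 : G))) ^ k) *ᵥ (cf D l a) = cf D l a := by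
  induction k with
  | zero => rw [pow_zero, Matrix.one_mulVec]
  | succ k ih =>
    rw [pow_succ, ← Matrix.mulVec_mulVec, Matrix.sub_mulVec, Matrix.smul_mulVec, lapU_cf,
      Matrix.one_mulVec, smul_zero, sub_zero, ih]

/-- the trace is at least the dimension of the space of constant fields -/
lemma trace_ge {P : Matrix ((Fin D → ZMod l) × Fin n) ((Fin D → ZMod l) × Fin n) ℝ}
    (hP : P.PosSemidef) (h : ∀ a, P *ᵥ (cf D l a) = cf D l a) : (n : ℝ) ≤ trace P := by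
  obtain ⟨Q, hQ⟩ := psd_factor hP
  obtain ⟨L, hL⟩ : ∃ L : ℝ, L = Fintype.card (Fin D → ZMod l) := ⟨_, rfl⟩
  have hL0 : 0 < L := by
    rw [hL]
    exact_mod_cast Fintype.card_pos
  -- the energy of the constant fields
  have h1 : ∀ a : Fin n, ∑ r, (∑ x : Fin D → ZMod l, Q r (x, a)) ^ 2 = L := by
    intro a
    have e1 : ∀ r, (Q *ᵥ (cf D l a)) r = ∑ x : Fin D → ZMod l, Q r (x, a) := by
      intro r
      rw [Matrix.mulVec, dotProduct, Fintype.sum_prod_type]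
      refine Finset.sum_congr rfl fun x _ => ?_
      simp [cf]
    have e2 : (cf D l a) ⬝ᵥ (P *ᵥ (cf D l a)) = (Q *ᵥ (cf D l a)) ⬝ᵥ (Q *ᵥ (cf D l a)) := by
      rw [hQ, ← Matrix.mulVec_mulVec, Matrix.dotProduct_mulVec, Matrix.vecMul_transpose]
    rw [h a] at e2
    have e3 : (cf D l a) ⬝ᵥ (cf D l a) = L := by
      rw [dotProduct, Fintype.sum_prod_type, hL]
      simp [cf]
    rw [e3] at e2
    rw [e2, dotProduct]
    refine Finset.sum_congr rfl fun r _ => ?_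
    rw [e1, sq]
  have h2 : trace P = ∑ r, ∑ a, ∑ x, Q r (x, a) ^ 2 := by
    rw [hQ, Matrix.trace]
    simp only [Matrix.diag_apply, Matrix.mul_apply, Matrix.transpose_apply]
    rw [Finset.sum_comm]
    refine Finset.sum_congr rfl fun r _ => ?_
    rw [Fintype.sum_prod_type_right]
    refine Finset.sum_congr rfl fun a _ => Finset.sum_congr rfl fun x _ => ?_
    rw [sq]
  have h3 : ∀ r a, (∑ x : Fin D → ZMod l, Q r (x, a)) ^ 2 ≤ L * ∑ x, Q r (x, a) ^ 2 := by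
    intro r a
    rw [hL]
    have := sq_sum_le_card_mul_sum_sq (s := (Finset.univ : Finset (Fin D → ZMod l)))
      (f := fun x => Q r (x, a))
    simpa using this
  have h4 : L * n ≤ L * trace P := by
    calc L * n = ∑ _a : Fin n, L := by
          rw [Finset.sum_const, Finset.card_univ, Fintype.card_fin, nsmul_eq_mul, mul_comm]
      _ = ∑ a : Fin n, ∑ r, (∑ x : Fin D → ZMod l, Q r (x, a)) ^ 2 :=
          Finset.sum_congr rfl fun a _ => (h1 a).symm
      _ = ∑ r, ∑ a : Fin n, (∑ x : Fin D → ZMod l, Q r (x, a)) ^ 2 := Finset.sum_comm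
      _ ≤ ∑ r, ∑ a : Fin n, L * ∑ x, Q r (x, a) ^ 2 :=
          Finset.sum_le_sum fun r _ => Finset.sum_le_sum fun a _ => h3 r a
      _ = L * trace P := by
          rw [h2, Finset.mul_sum]
          refine Finset.sum_congr rfl fun r _ => ?_
          rw [Finset.mul_sum]
  exact le_of_mul_le_mul_left h4 hL0

lemma sub_smul_psd (hD : 1 ≤ D) (B : LieBasis G n) (U : Link D l → G) :
    (1 - (1 / (4 * D : ℝ)) • lapU B U).PosSemidef := by
  have hD' : (0 : ℝ) < D := by exact_mod_cast hD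
  have h1 : 1 - (1 / (4 * D : ℝ)) • lapU B U = (1 / (4 * D : ℝ)) •
      ((4 * D : ℝ) • (1 : Matrix ((Fin D → ZMod l) × Fin n) ((Fin D → ZMod l) × Fin n) ℝ) -
      lapU B U) := by
    rw [smul_sub, smul_smul]
    have : (1 / (4 * D : ℝ)) * (4 * D) = 1 := by field_simp
    rw [this, one_smul]
  rw [h1]
  exact (lapU_psd' B U).smul (by positivity)

lemma tauW_nonneg (B : LieBasis G n) (U : Link D l → G) : 0 ≤ tauW B U := by
  unfold tauW
  refine Finset.sum_nonneg fun x _ => Finset.sum_nonneg fun i _ => Finset.sum_nonneg fun a _ => ?_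
  exact fro2_nonneg _

/-- the gain -/
lemma lap_gain {K : ℝ} (hK : 0 < K) (h3 : ∀ (ι : Type) [Fintype ι] [DecidableEq ι] [Nonempty ι]
      (A B : Matrix ι ι ℝ) (c lam : ℝ) (n : ℕ), 0 < c → A.PosSemidef → B.PosSemidef →
      (c • (1 : Matrix ι ι ℝ) - A).PosSemidef → (c • (1 : Matrix ι ι ℝ) - B).PosSemidef →
      (∀ k : ℕ, trace ((1 - (1 / c) • A) ^ k) ≤ trace ((1 - (1 / c) • B) ^ k)) →
      (∀ k : ℕ, (n : ℝ) ≤ trace ((1 - (1 / c) • B) ^ k)) → 0 < lam → lam ≤ c →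
      (¬ ∃ φ : Fin n → ι → ℝ, (∀ i j, ∑ x, φ i x * φ j x = if i = j then 1 else 0) ∧
        ∀ i, ∑ x, φ i x * (A.mulVec (φ i)) x < lam) →
      tsq B + Real.sqrt lam / (K * Fintype.card ι) ≤ tsq A)
    (h6 : S_WALK) (h7 : S_SQT) (hG : IsClosed (G : Set (UU N))) (hD : 1 ≤ D) (hn : 1 ≤ n)
    (B : LieBasis G n) (U : Link D l → G) {T : ℝ} (hT : 1 ≤ T)
    (h5 : ∀ (lam : ℝ) (φ : Fin n → (Fin D → ZMod l) × Fin n → ℝ), 0 ≤ lam →
      (∀ i j, ∑ q, φ i q * φ j q = if i = j then 1 else 0) →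
      (∀ i, ∑ q, φ i q * ((lapU B U).mulVec (φ i)) q ≤ lam) → tauW B U ≤ T * lam) :
    tsq (lapU B (fun _ : Link D l => (1 : G))) +
      Real.sqrt (min 1 (tauW B U)) / (2 * T * K * ((l : ℝ) ^ D * n)) ≤ tsq (lapU B U) := by
  have hD' : (1 : ℝ) ≤ D := by exact_mod_cast hD
  have hn' : (1 : ℝ) ≤ n := by exact_mod_cast hn
  have hl' : (0 : ℝ) < l := by exact_mod_cast Nat.pos_of_ne_zero (NeZero.ne l)
  have hc : (0 : ℝ) < 4 * D := by linarith
  have w1 := (h6 N n D l G hG hD B U).1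
  have ht := tauW_nonneg B U
  rcases ht.eq_or_lt with h0 | hpos
  · rw [← h0, min_eq_right zero_le_one, Real.sqrt_zero, zero_div, add_zero]
    exact (h7 ((Fin D → ZMod l) × Fin n) (lapU B U) (lapU B (fun _ : Link D l => (1 : G)))
      (4 * D) hc (lapU_psd B U) (lapU_psd B _) (lapU_psd' B U) (lapU_psd' B _) w1).1
  · obtain ⟨lam, hlam⟩ : ∃ lam : ℝ, lam = min (4 * D : ℝ) (tauW B U / (2 * T)) := ⟨_, rfl⟩
    have hT2 : 0 < 2 * T := by linarith
    have hl0 : 0 < lam := by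
      rw [hlam]
      exact lt_min hc (div_pos hpos hT2)
    have hlc : lam ≤ 4 * D := by rw [hlam]; exact min_le_left _ _
    have : Nonempty ((Fin D → ZMod l) × Fin n) := ⟨(0, ⟨0, hn⟩)⟩
    have g1 := h3 ((Fin D → ZMod l) × Fin n) (lapU B U) (lapU B (fun _ : Link D l => (1 : G)))
      (4 * D) lam n hc (lapU_psd B U) (lapU_psd B _) (lapU_psd' B U) (lapU_psd' B _) w1
      (fun k => trace_ge ((sub_smul_psd hD B _).pow k) (fun a => pow_cf B a _ k)) hl0 hlc
      (by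
        rintro ⟨φ, hφ1, hφ2⟩
        have h8 := h5 lam φ hl0.le hφ1 (fun i => (hφ2 i).le)
        have h9 : lam ≤ tauW B U / (2 * T) := by rw [hlam]; exact min_le_right _ _
        have h10 : T * lam ≤ tauW B U / 2 := by
          calc T * lam ≤ T * (tauW B U / (2 * T)) := mul_le_mul_of_nonneg_left h9 (by linarith)
            _ = tauW B U / 2 := by field_simp
        linarith)
    refine le_trans ?_ g1
    have hcard : ((Fintype.card ((Fin D → ZMod l) × Fin n) : ℕ) : ℝ) = (l : ℝ) ^ D * n := by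
      simp [ZMod.card]
    rw [hcard]
    have hln : 0 < (l : ℝ) ^ D * n := by positivity
    have g2 : Real.sqrt (min 1 (tauW B U)) / (2 * T) ≤ Real.sqrt lam := by
      have e1 : min 1 (tauW B U) / (2 * T) ≤ lam := by
        rw [hlam]
        apply le_min
        · calc min 1 (tauW B U) / (2 * T) ≤ 1 / (2 * T) :=
                div_le_div_of_nonneg_right (min_le_left _ _) hT2.le
            _ ≤ 1 := by
                rw [div_le_one hT2]
                linarith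
            _ ≤ 4 * D := by linarith
        · exact div_le_div_of_nonneg_right (min_le_right _ _) hT2.le
      have e2 : 0 ≤ min 1 (tauW B U) := le_min zero_le_one ht
      calc Real.sqrt (min 1 (tauW B U)) / (2 * T) ≤ Real.sqrt (min 1 (tauW B U)) / Real.sqrt (2 * T) := by
            apply div_le_div_of_nonneg_left (Real.sqrt_nonneg _) (Real.sqrt_pos.2 hT2)
            rw [Real.sqrt_le_left (by linarith)]
            nlinarith
        _ = Real.sqrt (min 1 (tauW B U) / (2 * T)) := (Real.sqrt_div e2 _).symm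
        _ ≤ Real.sqrt lam := Real.sqrt_le_sqrt e1
    have g3 : Real.sqrt (min 1 (tauW B U)) / (2 * T * K * ((l : ℝ) ^ D * n)) ≤
        Real.sqrt lam / (K * ((l : ℝ) ^ D * n)) := by
      have e3 : Real.sqrt (min 1 (tauW B U)) / (2 * T * K * ((l : ℝ) ^ D * n)) =
          (Real.sqrt (min 1 (tauW B U)) / (2 * T)) / (K * ((l : ℝ) ^ D * n)) := by
        rw [div_div]
        ring_nf
      rw [e3]
      exact div_le_div_of_nonneg_right g2 (by positivity)
    linarith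

theorem t_TSQU (h1 : S_TSH) (h2 : S_ROT) (h3 : S_GAINU) (h4 : S_WEI) (h5 : S_EVN) (h6 : S_WALK)
    (h7 : S_SQT) (h8 : S_HODGE) (h9 : S_EZ) (h10 : S_HC) : S_TSQU := by
  intro N n D G hG B hD hn
  obtain ⟨K, hK, h3⟩ := h3
  obtain ⟨C0, hC0, h4⟩ := h4 N n D G hG B
  obtain ⟨p1, C1, hC1, h5⟩ := h5 N n D G hG B
  have hD' : (2 : ℝ) ≤ D := by exact_mod_cast hD
  have hn' : (1 : ℝ) ≤ n := by exact_mod_cast hn
  refine ⟨2 * D + p1, 1 + (D * n) * (D * n * C0 + 1) + 4 * C1 * K * n, ?_, ?_⟩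
  · have a1 : 0 ≤ (D * n : ℝ) * (D * n * C0 + 1) := by positivity
    have a2 : 0 ≤ 4 * C1 * K * n := by positivity
    linarith
  intro l hl U
  have hl' : (1 : ℝ) ≤ l := by exact_mod_cast Nat.one_le_iff_ne_zero.2 (NeZero.ne l)
  obtain ⟨C, hC⟩ : ∃ C : ℝ, C = 1 + (D * n) * (D * n * C0 + 1) + 4 * C1 * K * n := ⟨_, rfl⟩
  rw [← hC]
  have hCpos : 0 < C := by
    rw [hC]
    have a1 : 0 ≤ (D * n : ℝ) * (D * n * C0 + 1) := by positivity
    have a2 : 0 ≤ 4 * C1 * K * n := by positivity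
    linarith
  obtain ⟨_, hp, _, _, _, _, hm, _, _⟩ := h10 N n D l G hG B
  obtain ⟨m, hm'⟩ : ∃ m : ℝ, m = magnetic U := ⟨_, rfl⟩
  have hm0 : 0 ≤ m := by rw [hm']; exact hm U
  have a1 := hess_lower h1 h2 B U (η := C0 * Real.sqrt (magnetic U))
    (mul_nonneg hC0 (Real.sqrt_nonneg _)) (hp U) (h4 l U)
  have a2 := lap_gain hK h3 h6 h7 hG (by omega) hn B U (T := C1 * (l : ℝ) ^ p1)
    (one_le_mul_of_one_le_of_one_le hC1 (one_le_pow₀ hl')) (h5 l U)
  have a3 : ezero n D l = ((D : ℝ) - 1) / 2 * tsq (lapU B (fun _ : Link D l => (1 : G))) := by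
    rw [← h9 N n D l G hG B, h8 N n D l G hG B _ magnetic_one]
    ring
  rw [← hm'] at a1 ⊢
  obtain ⟨g, hg⟩ : ∃ g : ℝ, g = Real.sqrt (min 1 (tauW B U)) := ⟨_, rfl⟩
  rw [← hg] at a2 ⊢
  have hg0 : 0 ≤ g := by rw [hg]; exact Real.sqrt_nonneg _
  -- the error
  have b1 : 1 / 2 * ((l : ℝ) ^ D * D * n * Real.sqrt ((l : ℝ) ^ D * D * n * (C0 * Real.sqrt m))) ≤
      C * (l : ℝ) ^ (2 * D + p1) * m ^ (1 / 4 : ℝ) := by
    have e1 : Real.sqrt ((l : ℝ) ^ D * D * n * (C0 * Real.sqrt m)) =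
        Real.sqrt ((l : ℝ) ^ D * D * n * C0) * m ^ (1 / 4 : ℝ) := by
      rw [← mul_assoc, Real.sqrt_mul (by positivity)]
      congr 1
      rw [Real.sqrt_eq_rpow, Real.sqrt_eq_rpow, ← Real.rpow_mul hm0]
      norm_num
    have e2 : Real.sqrt ((l : ℝ) ^ D * D * n * C0) ≤ (l : ℝ) ^ D * (D * n * C0 + 1) := by
      rw [Real.sqrt_le_left (by positivity)]
      have f1 : (1 : ℝ) ≤ (l : ℝ) ^ D := one_le_pow₀ hl'
      have f2 : 0 ≤ (D * n * C0 : ℝ) := by positivity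
      nlinarith [mul_nonneg (mul_nonneg (by positivity : 0 ≤ (l : ℝ) ^ D) (by linarith : 0 ≤ (l : ℝ) ^ D - 1)) f2, mul_nonneg f2 f2, mul_nonneg (mul_nonneg (by positivity : 0 ≤ (l : ℝ) ^ D) (by positivity : 0 ≤ (l : ℝ) ^ D)) (mul_nonneg f2 f2), mul_nonneg (by positivity : 0 ≤ (l : ℝ) ^ D) f2]
    have e3 : 0 ≤ m ^ (1 / 4 : ℝ) := Real.rpow_nonneg hm0 _
    have e4 : (l : ℝ) ^ (2 * D + p1) = (l : ℝ) ^ D * (l : ℝ) ^ D * (l : ℝ) ^ p1 := by
      rw [two_mul, pow_add, pow_add]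
    have f1 : (1 : ℝ) ≤ (l : ℝ) ^ D := one_le_pow₀ hl'
    have f2 : (1 : ℝ) ≤ (l : ℝ) ^ p1 := one_le_pow₀ hl'
    rw [e1]
    calc 1 / 2 * ((l : ℝ) ^ D * D * n * (Real.sqrt ((l : ℝ) ^ D * D * n * C0) * m ^ (1 / 4 : ℝ))) ≤
        1 / 2 * ((l : ℝ) ^ D * D * n * (((l : ℝ) ^ D * (D * n * C0 + 1)) * m ^ (1 / 4 : ℝ))) := by
          gcongr
      _ = 1 / 2 * ((D * n) * (D * n * C0 + 1)) * ((l : ℝ) ^ D * (l : ℝ) ^ D * 1) * m ^ (1 / 4 : ℝ) := by
          ring
      _ ≤ C * ((l : ℝ) ^ D * (l : ℝ) ^ D * (l : ℝ) ^ p1) * m ^ (1 / 4 : ℝ) := by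
          have f3 : 1 / 2 * ((D * n : ℝ) * (D * n * C0 + 1)) ≤ C := by
            rw [hC]
            have : 0 ≤ (D * n : ℝ) * (D * n * C0 + 1) := by positivity
            have : 0 ≤ 4 * C1 * K * n := by positivity
            linarith
          gcongr
      _ = _ := by rw [e4]
  -- the gain
  have b2 : (C * (l : ℝ) ^ (2 * D + p1))⁻¹ * g ≤
      1 / 2 * (g / (2 * (C1 * (l : ℝ) ^ p1) * K * ((l : ℝ) ^ D * n))) := by
    have f1 : (1 : ℝ) ≤ (l : ℝ) ^ D := one_le_pow₀ hl'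
    have e4 : (l : ℝ) ^ (2 * D + p1) = (l : ℝ) ^ D * (l : ℝ) ^ D * (l : ℝ) ^ p1 := by
      rw [two_mul, pow_add, pow_add]
    have e5 : 1 / 2 * (g / (2 * (C1 * (l : ℝ) ^ p1) * K * ((l : ℝ) ^ D * n))) =
        ((4 * C1 * K * n) * ((l : ℝ) ^ D * 1 * (l : ℝ) ^ p1))⁻¹ * g := by
      field_simp
      ring
    rw [e5, e4]
    apply mul_le_mul_of_nonneg_right _ hg0
    apply inv_anti₀ (by positivity)
    have f3 : 4 * C1 * K * n ≤ C := by
      rw [hC]
      have : 0 ≤ (D * n : ℝ) * (D * n * C0 + 1) := by positivity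
      linarith
    have f4 : 0 ≤ 4 * C1 * K * n := by positivity
    gcongr
  have b3 : ((D : ℝ) - 1) / 2 * (tsq (lapU B (fun _ : Link D l => (1 : G))) +
      g / (2 * (C1 * (l : ℝ) ^ p1) * K * ((l : ℝ) ^ D * n))) ≤
      ((D : ℝ) - 1) / 2 * tsq (lapU B U) := mul_le_mul_of_nonneg_left a2 (by linarith)
  have b4 : 0 ≤ g / (2 * (C1 * (l : ℝ) ^ p1) * K * ((l : ℝ) ^ D * n)) := by positivity
  obtain ⟨γ, hγ⟩ : ∃ γ : ℝ, γ = g / (2 * (C1 * (l : ℝ) ^ p1) * K * ((l : ℝ) ^ D * n)) := ⟨_, rfl⟩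
  rw [← hγ] at b2 b3 b4
  have b5 : 1 / 2 * γ ≤ ((D : ℝ) - 1) / 2 * γ := mul_le_mul_of_nonneg_right (by linarith) b4
  rw [a3]
  linarith

end

end Pool.Agent.Q24.LU
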